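import Pool.Agent.H53R2.SFinal

set_option autoImplicit false

namespace Pool.Agent.Results.MP_ecb9b3_al.SmallImpliesHopfian

/-- `G` belongs to the variety of groups defined by the laws `w = 1`, `w ∈ W`. -/
def InVariety (W : Set (FreeGroup ℕ)) (G : Type) [Group G] : Prop :=
  ∀ w ∈ W, ∀ f : ℕ → G, FreeGroup.lift f w = 1

/-- the variety defined by `W` is soluble: the derived lengths of its groups are bounded. -/
def SolubleVariety (W : Set (FreeGroup ℕ)) : Prop :=
  ∃ d : ℕ, ∀ (G : Type) [Group G], InVariety W G → derivedSeries G d = ⊥

/-- the variety defined by `W` is small: every family of pairwise non-isomorphic finitely generated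
groups in it has fewer than `2^ℵ₀` members. -/
def SmallVariety (W : Set (FreeGroup ℕ)) : Prop :=
  ∀ (ι : Type) (G : ι → Type) [∀ i, Group (G i)], (∀ i, Group.FG (G i)) →
    (∀ i, InVariety W (G i)) → (∀ i j, Nonempty (G i ≃* G j) → i = j) →
    Cardinal.mk ι < Cardinal.continuum

/-- `G` is Hopfian: every surjective endomorphism is injective. -/
def Hopfian (G : Type) [Group G] : Prop :=
  ∀ φ : G →* G, Function.Surjective φ → Function.Injective φ

/-- `G` satisfies the maximal condition on normal subgroups: every normal subgroup of `G` is the
normal closure of a finite set. -/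
def MaxNormal (G : Type) [Group G] : Prop :=
  ∀ N : Subgroup G, N.Normal → ∃ S : Finset G, N = Subgroup.normalClosure (S : Set G)

/-- In a small soluble variety of groups every finitely generated group satisfies the maximal
condition on normal subgroups and is Hopfian. -/
theorem result (W : Set (FreeGroup ℕ)) (hsol : SolubleVariety W) (hsmall : SmallVariety W)
    (G : Type) [Group G] (hfg : Group.FG G) (hG : InVariety W G) : MaxNormal G ∧ Hopfian G := by
  obtain ⟨d, hd⟩ := hsol
  have hmax : H53R2.MaxN G := H53R2.maxN_of_small hsmall d hd G hG
  exact ⟨fun N hN => hmax.normalClosure N hN, fun φ hφ => H53R2.hopfian_of_maxN hmax φ hφ⟩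

end Pool.Agent.Results.MP_ecb9b3_al.SmallImpliesHopfian
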